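import Pool.Agent.W857.CC.Stm

/-!
# CC-EMB : greedy embedding of a closed walk of the reduced graph as a cycle
-/

namespace Pool.Agent.W970.CC.EMB

open Finset
open scoped Classical
open Pool.Agent.W857.CC

lemma eb_eq {V : Type} (G : SimpleGraph V) (A B : Finset V) :
    eb G A B = ∑ a ∈ A, nb G a B := by
  unfold eb nb
  rw [Finset.card_filter, Finset.sum_product]
  refine Finset.sum_congr rfl fun a _ => ?_
  rw [Finset.card_filter]

lemma bad {V : Type} {G : SimpleGraph V} {ε γ : ℝ} {s t : Finset V} (h : LReg G ε γ s t)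
    (hε : 0 < ε) (hs : 0 < #s) {t' : Finset V} (ht : t' ⊆ t) (ht' : ε * #t ≤ #t') :
    (#(s.filter fun v => (nb G v t' : ℝ) < γ * #t') : ℝ) < ε * #s := by
  by_contra hcon
  push Not at hcon
  set B := s.filter fun v => (nb G v t' : ℝ) < γ * #t' with hB
  have h1 := h B (Finset.filter_subset _ _) t' ht hcon ht'
  rw [eb_eq] at h1
  push_cast at h1
  have hpos : (0 : ℝ) < ε * #s := mul_pos hε (by exact_mod_cast hs)
  have hBne : B.Nonempty := by
    rw [← Finset.card_pos]
    have : (0 : ℝ) < #B := lt_of_lt_of_le hpos hcon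
    exact_mod_cast this
  have h2 : ∑ a ∈ B, (nb G a t' : ℝ) < ∑ _a ∈ B, γ * #t' := by
    refine Finset.sum_lt_sum_of_nonempty hBne fun a ha => ?_
    exact (Finset.mem_filter.1 ha).2
  rw [Finset.sum_const, nsmul_eq_mul] at h2
  have h3 : γ * #B * #t' = #B * (γ * #t') := by ring
  linarith

lemma mem_cl {V ι : Type} [Fintype V] {part : V → ι} {i : ι} {v : V} :
    v ∈ cl part i ↔ part v = i := by
  simp [cl]

/-- the invariant of the greedy embedding -/
structure Inv {V : Type} [Fintype V] {k : ℕ} (G : SimpleGraph V) (part : V → Fin k)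
    (c : ℕ → Fin k) (T0 : Finset V) (v0 : V) (ε : ℝ) (ℓ t : ℕ) (v : ℕ → V) : Prop where
  A : ∀ s ≤ t, part (v s) = c s ∧ v s ∉ T0
  B : ∀ s ≤ t, ∀ s' ≤ t, v s = v s' → s = s'
  C : ∀ s < t, G.Adj (v s) (v (s + 1))
  D : v 0 = v0
  E : t + 2 < ℓ → 2 * ε * #(cl part (c (t + 1))) ≤
    nb G (v t) ((cl part (c (t + 1))).filter fun w => w ∉ T0 ∧ ∀ s ≤ t, v s ≠ w)
  F : t + 2 = ℓ → ∃ w ∈ T0, G.Adj (v t) w

lemma size_T {V : Type} [Fintype V] {k : ℕ} {part : V → Fin k} {T0 : Finset V} {j : Fin k}
    {ε : ℝ} (hε : 0 < ε)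
    (hT : T0 ⊆ cl part j) (hT2 : (#T0 : ℝ) ≤ 2 * ε * #(cl part j)) (i : Fin k) :
    (#(T0 ∩ cl part i) : ℝ) ≤ 2 * ε * #(cl part i) := by
  by_cases h : i = j
  · subst h
    refine le_trans ?_ hT2
    exact_mod_cast Finset.card_le_card Finset.inter_subset_left
  · have : T0 ∩ cl part i = ∅ := by
      ext x
      simp only [Finset.mem_inter, Finset.notMem_empty, iff_false, not_and]
      intro h1 h2
      exact h ((mem_cl.1 h2).symm.trans (mem_cl.1 (hT h1)))
    rw [this]
    simp only [Finset.card_empty, Nat.cast_zero]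
    positivity

lemma size_Z {V : Type} [Fintype V] {k : ℕ} {part : V → Fin k} {T0 : Finset V} {j : Fin k}
    {ε η : ℝ} (hε : 0 < ε)
    (hT : T0 ⊆ cl part j) (hT2 : (#T0 : ℝ) ≤ 2 * ε * #(cl part j)) (c : ℕ → Fin k) (ℓ t : ℕ)
    (i : Fin k) (hv : (visits ℓ c i : ℝ) ≤ (1 - η) * #(cl part i)) (v : ℕ → V) (ht : t < ℓ)
    (hA : ∀ s ≤ t, part (v s) = c s) :
    (η - 2 * ε) * #(cl part i) ≤
      #((cl part i).filter fun w => w ∉ T0 ∧ ∀ s ≤ t, v s ≠ w) := by
  have hsub : cl part i ⊆ ((cl part i).filter fun w => w ∉ T0 ∧ ∀ s ≤ t, v s ≠ w) ∪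
      ((T0 ∩ cl part i) ∪ ((range ℓ).filter fun s => c s = i).image v) := by
    intro w hw
    simp only [Finset.mem_union, Finset.mem_filter, Finset.mem_inter, Finset.mem_image,
      Finset.mem_range]
    by_cases h1 : w ∈ T0
    · exact Or.inr (Or.inl ⟨h1, hw⟩)
    · by_cases h2 : ∀ s ≤ t, v s ≠ w
      · exact Or.inl ⟨hw, h1, h2⟩
      · push Not at h2
        obtain ⟨s, hs, hsw⟩ := h2
        refine Or.inr (Or.inr ⟨s, ⟨by omega, ?_⟩, hsw⟩)
        rw [← hA s hs, hsw]
        exact mem_cl.1 hw
  have h1 := Finset.card_le_card hsub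
  have h2 := Finset.card_union_le ((cl part i).filter fun w => w ∉ T0 ∧ ∀ s ≤ t, v s ≠ w)
      ((T0 ∩ cl part i) ∪ ((range ℓ).filter fun s => c s = i).image v)
  have h3 := Finset.card_union_le (T0 ∩ cl part i) (((range ℓ).filter fun s => c s = i).image v)
  have h4 : #(((range ℓ).filter fun s => c s = i).image v) ≤ visits ℓ c i :=
    Finset.card_image_le.trans (le_of_eq (by
      unfold visits
      apply congrArg
      ext x
      simp only [Finset.mem_filter]))
  have h5 := size_T hε hT hT2 i
  have h6 : (#(cl part i) : ℝ) ≤ #((cl part i).filter fun w => w ∉ T0 ∧ ∀ s ≤ t, v s ≠ w) +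
      (#(T0 ∩ cl part i) + visits ℓ c i) := by
    exact_mod_cast (h1.trans h2).trans (Nat.add_le_add_left (h3.trans (Nat.add_le_add_left h4 _)) _)
  nlinarith

theorem main : S_EMB := by
  intro γ η hγ hγ1 hη hη1
  refine ⟨γ * η / 16, by positivity, ?_⟩
  intro ε hε hε0
  refine ⟨⌈2 / ε⌉₊ + 2, ?_⟩
  intro V _ k G part R hR hN ℓ c hℓ hc hvis
  have hγη : γ * η ≤ γ := by nlinarith
  have hγη' : γ * η ≤ η := by nlinarith
  have hm : ∀ i, 2 ≤ ε * #(cl part i) := by
    intro i
    have h1 : (2 / ε : ℝ) ≤ #(cl part i) := by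
      refine (Nat.le_ceil _).trans ?_
      exact_mod_cast (Nat.le_add_right _ 2).trans (hN i)
    rw [div_le_iff₀ hε] at h1
    linarith
  have hmpos : ∀ i, 0 < #(cl part i) := by
    intro i
    have := hN i
    omega
  have hmR : ∀ i, (0 : ℝ) < #(cl part i) := fun i => by exact_mod_cast hmpos i
  obtain ⟨hc1, hc2⟩ := hc
  set j1 := c (ℓ - 1) with hj1
  have hadj10 : R.Adj (c 0) j1 := hc2.symm
  have hadj01 : R.Adj (c 0) (c 1) := hc1 0 (by omega)
  -- choice of `v0`
  have hb1 := bad (hR _ _ hadj10) hε (hmpos _) (Finset.Subset.refl _)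
    (by nlinarith [hmR j1])
  have hb2 := bad (hR _ _ hadj01) hε (hmpos _) (Finset.Subset.refl _)
    (by nlinarith [hmR (c 1)])
  obtain ⟨v0, hv0, hv0b⟩ : ∃ v ∈ cl part (c 0),
      v ∉ ((cl part (c 0)).filter fun v => (nb G v (cl part j1) : ℝ) < γ * #(cl part j1)) ∪
        ((cl part (c 0)).filter fun v => (nb G v (cl part (c 1)) : ℝ) < γ * #(cl part (c 1))) := by
    apply Finset.exists_mem_notMem_of_card_lt_card
    have h1 := Finset.card_union_le
      ((cl part (c 0)).filter fun v => (nb G v (cl part j1) : ℝ) < γ * #(cl part j1))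
      ((cl part (c 0)).filter fun v => (nb G v (cl part (c 1)) : ℝ) < γ * #(cl part (c 1)))
    have h2 : (#(((cl part (c 0)).filter fun v => (nb G v (cl part j1) : ℝ) < γ * #(cl part j1)) ∪
        ((cl part (c 0)).filter fun v => (nb G v (cl part (c 1)) : ℝ) < γ * #(cl part (c 1)))) : ℝ)
        ≤ #((cl part (c 0)).filter fun v => (nb G v (cl part j1) : ℝ) < γ * #(cl part j1)) +
        #((cl part (c 0)).filter fun v => (nb G v (cl part (c 1)) : ℝ) < γ * #(cl part (c 1))) := by
      exact_mod_cast h1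
    have h3 := hmR (c 0)
    have : (#(((cl part (c 0)).filter fun v => (nb G v (cl part j1) : ℝ) < γ * #(cl part j1)) ∪
        ((cl part (c 0)).filter fun v => (nb G v (cl part (c 1)) : ℝ) < γ * #(cl part (c 1)))) : ℝ)
        < #(cl part (c 0)) := by nlinarith
    exact_mod_cast this
  have hv0j : γ * #(cl part j1) ≤ nb G v0 (cl part j1) := by
    by_contra h
    push Not at h
    exact hv0b (Finset.mem_union_left _ (Finset.mem_filter.2 ⟨hv0, h⟩))
  have hv01 : γ * #(cl part (c 1)) ≤ nb G v0 (cl part (c 1)) := by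
    by_contra h
    push Not at h
    exact hv0b (Finset.mem_union_right _ (Finset.mem_filter.2 ⟨hv0, h⟩))
  -- choice of `T0`
  have hceil : (⌈ε * #(cl part j1)⌉₊ : ℝ) ≤ 2 * ε * #(cl part j1) := by
    have h1 := Nat.ceil_lt_add_one (show 0 ≤ ε * #(cl part j1) by linarith [hm j1])
    linarith [hm j1]
  obtain ⟨T0, hT0s, hT0c⟩ : ∃ T ⊆ (cl part j1).filter fun w => G.Adj v0 w,
      #T = ⌈ε * #(cl part j1)⌉₊ := by
    apply Finset.exists_subset_card_eq
    have : (⌈ε * #(cl part j1)⌉₊ : ℝ) ≤ nb G v0 (cl part j1) := by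
      refine hceil.trans (le_trans ?_ hv0j)
      have := hmR j1
      nlinarith
    exact_mod_cast this
  have hT0j : T0 ⊆ cl part j1 := hT0s.trans (Finset.filter_subset _ _)
  have hT0a : ∀ w ∈ T0, G.Adj v0 w := fun w hw => (Finset.mem_filter.1 (hT0s hw)).2
  have hT0u : (#T0 : ℝ) ≤ 2 * ε * #(cl part j1) := by rw [hT0c]; exact hceil
  have hT0l : ε * #(cl part j1) ≤ #T0 := by rw [hT0c]; exact Nat.le_ceil _
  have hpv0 : part v0 = c 0 := mem_cl.1 hv0
  have hv0T : v0 ∉ T0 := by
    intro h
    have := mem_cl.1 (hT0j h)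
    rw [hpv0] at this
    exact hadj10.ne this
  -- the induction
  have key : ∀ t, t + 2 ≤ ℓ → ∃ v : ℕ → V, Inv G part c T0 v0 ε ℓ t v := by
    intro t
    induction t with
    | zero =>
      intro _
      refine ⟨fun _ => v0, ⟨?_, ?_, ?_, rfl, ?_, ?_⟩⟩
      · intro s hs
        obtain rfl : s = 0 := by omega
        exact ⟨hpv0, hv0T⟩
      · intro s hs s' hs' _
        omega
      · intro s hs
        omega
      · intro _
        -- neighbours of `v0` in the first cluster
        have hsub : ((cl part (c 1)).filter fun w => G.Adj v0 w) ⊆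
            (((cl part (c (0 + 1))).filter fun w => w ∉ T0 ∧ ∀ s ≤ 0, v0 ≠ w).filter
              fun w => G.Adj v0 w) ∪ (T0 ∩ cl part (c 1)) := by
          intro w hw
          obtain ⟨h1, h2⟩ := Finset.mem_filter.1 hw
          by_cases h3 : w ∈ T0
          · exact Finset.mem_union_right _ (Finset.mem_inter.2 ⟨h3, h1⟩)
          · refine Finset.mem_union_left _ (Finset.mem_filter.2 ⟨Finset.mem_filter.2
              ⟨h1, h3, fun s _ => h2.ne⟩, h2⟩)
        have h1 := (Finset.card_le_card hsub).trans (Finset.card_union_le _ _)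
        have h2 := size_T hε hT0j hT0u (c 1)
        have h3 : (nb G v0 (cl part (c 1)) : ℝ) ≤
            nb G v0 ((cl part (c (0 + 1))).filter fun w => w ∉ T0 ∧ ∀ s ≤ 0, v0 ≠ w) +
            #(T0 ∩ cl part (c 1)) := by
          unfold nb
          exact_mod_cast h1
        have h4 := hmR (c 1)
        show 2 * ε * #(cl part (c 1)) ≤ _
        nlinarith
      · intro h
        omega
    | succ t ih =>
      intro ht
      obtain ⟨v, hv⟩ := ih (by omega)
      have hE := hv.E (by omega)
      have hadj : R.Adj (c (t + 1)) (c (t + 2)) := hc1 (t + 1) (by omega)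
      -- the next target
      obtain ⟨Z, hZs, hZl, hZ1, hZ2⟩ : ∃ Z ⊆ cl part (c (t + 2)),
          ε * #(cl part (c (t + 2))) ≤ #Z ∧
          (t + 1 + 2 < ℓ → Z = ((cl part (c (t + 2))).filter fun w => w ∉ T0 ∧ ∀ s ≤ t, v s ≠ w) ∧
            η / 2 * #(cl part (c (t + 2))) ≤ #Z) ∧
          (t + 1 + 2 = ℓ → Z = T0) := by
        by_cases h : t + 1 + 2 = ℓ
        · have hcj : c (t + 2) = j1 := by rw [hj1]; congr 1; omega
          refine ⟨T0, ?_, ?_, fun h' => by omega, fun _ => rfl⟩
          · rw [hcj]; exact hT0j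
          · rw [hcj]; exact hT0l
        · have h1 := size_Z (η := η) hε hT0j hT0u c ℓ t (c (t + 2)) (hvis _) v (by omega)
            (fun s hs => (hv.A s hs).1)
          have h2 := hmR (c (t + 2))
          refine ⟨_, Finset.filter_subset _ _, ?_, fun _ => ⟨rfl, ?_⟩, fun h' => absurd h' h⟩
          · refine le_trans ?_ h1
            nlinarith
          · refine le_trans ?_ h1
            nlinarith
      have hbad := bad (hR _ _ hadj) hε (hmpos _) hZs hZl
      obtain ⟨w, hw, hwb⟩ : ∃ w ∈ ((cl part (c (t + 1))).filter fun w => w ∉ T0 ∧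
          ∀ s ≤ t, v s ≠ w).filter fun w => G.Adj (v t) w,
          w ∉ (cl part (c (t + 1))).filter fun u => (nb G u Z : ℝ) < γ * #Z := by
        apply Finset.exists_mem_notMem_of_card_lt_card
        have h1 : (#((cl part (c (t + 1))).filter fun u => (nb G u Z : ℝ) < γ * #Z) : ℝ) <
            #(((cl part (c (t + 1))).filter fun w => w ∉ T0 ∧
          ∀ s ≤ t, v s ≠ w).filter fun w => G.Adj (v t) w) := by
          unfold nb at hE
          have := hmR (c (t + 1))
          have h3 : (#((cl part (c (t + 1))).filter fun u => (nb G u Z : ℝ) < γ * #Z) : ℝ) <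
            2 * ε * #(cl part (c (t + 1))) := by nlinarith
          exact lt_of_lt_of_le h3 hE
        exact_mod_cast h1
      obtain ⟨hw1, hw2⟩ := Finset.mem_filter.1 hw
      obtain ⟨hw3, hw4, hw5⟩ := Finset.mem_filter.1 hw1
      have hwZ : γ * #Z ≤ nb G w Z := by
        by_contra h
        push Not at h
        exact hwb (Finset.mem_filter.2 ⟨hw3, h⟩)
      have hup : ∀ s ≤ t, Function.update v (t + 1) w s = v s := by
        intro s hs
        rw [Function.update_of_ne (by omega)]
      have hup1 : Function.update v (t + 1) w (t + 1) = w := Function.update_self _ _ _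
      refine ⟨Function.update v (t + 1) w, ⟨?_, ?_, ?_, ?_, ?_, ?_⟩⟩
      · intro s hs
        rcases Nat.lt_or_ge t s with h | h
        · obtain rfl : s = t + 1 := by omega
          rw [hup1]
          exact ⟨mem_cl.1 hw3, hw4⟩
        · rw [hup s h]
          exact hv.A s h
      · intro s hs s' hs' he
        rcases Nat.lt_or_ge t s with h | h <;> rcases Nat.lt_or_ge t s' with h' | h'
        · omega
        · obtain rfl : s = t + 1 := by omega
          rw [hup1, hup s' h'] at he
          exact absurd he.symm (hw5 s' h')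
        · obtain rfl : s' = t + 1 := by omega
          rw [hup1, hup s h] at he
          exact absurd he (hw5 s h)
        · rw [hup s h, hup s' h'] at he
          exact hv.B s h s' h' he
      · intro s hs
        rcases Nat.lt_or_ge s t with h | h
        · rw [hup s h.le, hup (s + 1) h]
          exact hv.C s h
        · obtain rfl : s = t := by omega
          rw [hup1, hup s le_rfl]
          exact hw2
      · rw [hup 0 (Nat.zero_le _)]
        exact hv.D
      · intro hlt
        obtain ⟨hZeq, hZsz⟩ := hZ1 hlt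
        have hset : ((cl part (c (t + 1 + 1))).filter fun x => x ∉ T0 ∧
            ∀ s ≤ t + 1, Function.update v (t + 1) w s ≠ x) = Z := by
          rw [hZeq]
          ext x
          simp only [Finset.mem_filter]
          constructor
          · rintro ⟨h1, h2, h3⟩
            refine ⟨h1, h2, fun s hs => ?_⟩
            rw [← hup s hs]
            exact h3 s (by omega)
          · rintro ⟨h1, h2, h3⟩
            refine ⟨h1, h2, fun s hs => ?_⟩
            rcases Nat.lt_or_ge t s with h | h
            · obtain rfl : s = t + 1 := by omega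
              rw [hup1]
              rintro rfl
              exact hadj.ne ((mem_cl.1 hw3).symm.trans (mem_cl.1 h1))
            · rw [hup s h]
              exact h3 s h
        rw [hset, hup1]
        have h1 := hmR (c (t + 2))
        have h2 : γ * (η / 2 * #(cl part (c (t + 2)))) ≤ γ * #Z :=
          mul_le_mul_of_nonneg_left hZsz hγ.le
        show 2 * ε * #(cl part (c (t + 2))) ≤ _
        nlinarith
      · intro heq
        rw [hup1]
        have hZT := hZ2 heq
        rw [hZT] at hwZ
        have h1 : (0 : ℝ) < #T0 := by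
          have := hm j1
          linarith
        have h2 : (0 : ℝ) < nb G w T0 := lt_of_lt_of_le (mul_pos hγ h1) hwZ
        have h3 : 0 < nb G w T0 := by exact_mod_cast h2
        unfold nb at h3
        obtain ⟨x, hx⟩ := Finset.card_pos.1 h3
        exact ⟨x, (Finset.mem_filter.1 hx).1, (Finset.mem_filter.1 hx).2⟩
  -- conclusion
  obtain ⟨t, ht⟩ : ∃ t, ℓ = t + 2 := ⟨ℓ - 2, by omega⟩
  obtain ⟨v, hv⟩ := key t (by omega)
  obtain ⟨w, hwT, hw⟩ := hv.F ht.symm
  have hup : ∀ s ≤ t, Function.update v (t + 1) w s = v s := by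
    intro s hs
    rw [Function.update_of_ne (by omega)]
  have hup1 : Function.update v (t + 1) w (t + 1) = w := Function.update_self _ _ _
  have hwv : ∀ s ≤ t, v s ≠ w := by
    intro s hs he
    exact (hv.A s hs).2 (he ▸ hwT)
  refine ⟨Function.update v (t + 1) w, ?_, ?_, ?_⟩
  · intro s hs s' hs' he
    rcases Nat.lt_or_ge t s with h | h <;> rcases Nat.lt_or_ge t s' with h' | h'
    · omega
    · obtain rfl : s = t + 1 := by omega
      rw [hup1, hup s' h'] at he
      exact absurd he.symm (hwv s' h')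
    · obtain rfl : s' = t + 1 := by omega
      rw [hup1, hup s h] at he
      exact absurd he (hwv s h)
    · rw [hup s h, hup s' h'] at he
      exact hv.B s h s' h' he
  · intro s hs
    rcases Nat.lt_or_ge s t with h | h
    · rw [hup s h.le, hup (s + 1) h]
      exact hv.C s h
    · obtain rfl : s = t := by omega
      rw [hup1, hup s le_rfl]
      exact hw
  · have : ℓ - 1 = t + 1 := by omega
    rw [this, hup1, hup 0 (Nat.zero_le _), hv.D]
    exact (hT0a w hwT).symm

end Pool.Agent.W970.CC.EMB
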