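import Pool.Agent.W857.CC.Stm

/-!
# CC-MATCH : Hall's theorem with deficiency, the real inequality, large partial injections
-/

set_option maxHeartbeats 400000

namespace Pool.Agent.W970.CC.MATCH

open Finset
open scoped Classical
open Pool.Agent.W857.CC

theorem hall : S_HALL := by
  intro k t R hX
  let A : Fin k → Finset (Fin k ⊕ Fin t) :=
    fun i => (univ.filter fun j => R.Adj i j).disjSum univ
  have hA : ∀ s : Finset (Fin k), #s ≤ #(s.biUnion A) := by
    intro s
    rcases s.eq_empty_or_nonempty with rfl | ⟨i0, hi0⟩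
    · simp
    · have hsub : (univ.filter fun j => ∃ i ∈ s, R.Adj i j).disjSum (univ : Finset (Fin t)) ⊆
          s.biUnion A := by
        intro z hz
        rw [Finset.mem_biUnion]
        rcases Finset.mem_disjSum.1 hz with ⟨j, hj, rfl⟩ | ⟨j, hj, rfl⟩
        · obtain ⟨i, hi, hij⟩ := (Finset.mem_filter.1 hj).2
          exact ⟨i, hi, Finset.inl_mem_disjSum.2 (Finset.mem_filter.2 ⟨Finset.mem_univ _, hij⟩)⟩
        · exact ⟨i0, hi0, Finset.inr_mem_disjSum.2 (Finset.mem_univ _)⟩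
      have h1 := Finset.card_le_card hsub
      rw [Finset.card_disjSum, Finset.card_univ, Fintype.card_fin] at h1
      exact (hX s).trans h1
  obtain ⟨F, hF, hFA⟩ := (Finset.all_card_le_biUnion_card_iff_exists_injective A).1 hA
  let D : Finset (Fin k) := univ.filter fun i => ∃ j, F i = Sum.inl j
  let f : Fin k → Fin k := fun i => if h : ∃ j, F i = Sum.inl j then h.choose else i
  have hf : ∀ i ∈ D, F i = Sum.inl (f i) := by
    intro i hi
    have h : ∃ j, F i = Sum.inl j := (Finset.mem_filter.1 hi).2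
    have h2 : f i = h.choose := dif_pos h
    rw [h2]
    exact h.choose_spec
  refine ⟨D, f, ?_, ?_, ?_⟩
  · intro i hi j hj hij
    apply hF
    rw [hf i hi, hf j hj, hij]
  · intro i hi
    have h1 := hFA i
    rw [hf i hi] at h1
    exact (Finset.mem_filter.1 (Finset.inl_mem_disjSum.1 h1)).2
  · have h1 : #(Dᶜ) ≤ t := by
      have h2 : (Dᶜ).image F ⊆ (univ : Finset (Fin t)).image Sum.inr := by
        intro z hz
        obtain ⟨i, hi, rfl⟩ := Finset.mem_image.1 hz
        have hi' : ¬ ∃ j, F i = Sum.inl j := by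
          intro h
          exact (Finset.mem_compl.1 hi) (Finset.mem_filter.2 ⟨Finset.mem_univ _, h⟩)
        rcases hz' : F i with j | j
        · exact absurd ⟨j, hz'⟩ hi'
        · exact Finset.mem_image.2 ⟨j, Finset.mem_univ _, rfl⟩
      have h3 := Finset.card_le_card h2
      rw [Finset.card_image_of_injective _ hF] at h3
      refine h3.trans (Finset.card_image_le.trans ?_)
      simp
    have h2 := Finset.card_add_card_compl D
    rw [Fintype.card_fin] at h2
    omega

lemma cst_lt : Cst < 0.382 := by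
  unfold Cst
  have h : (2.236 : ℝ) < Real.sqrt 5 := by
    rw [Real.lt_sqrt (by norm_num)]
    norm_num
  linarith

lemma quad_pos {β : ℝ} (hβ : β < Cst) : 0 < 1 - 3 * β + β ^ 2 := by
  have h5 : Real.sqrt 5 ^ 2 = 5 := Real.sq_sqrt (by norm_num)
  have h0 : 0 ≤ Real.sqrt 5 := Real.sqrt_nonneg 5
  unfold Cst at hβ
  have h1 : 0 < (3 - Real.sqrt 5) / 2 - β := by linarith
  have h2 : 0 < (3 + Real.sqrt 5) / 2 - β := by linarith
  have h3 := mul_pos h1 h2
  nlinarith

lemma f_lower {β a b : ℝ} (hβ : β < Cst) (ha : 0 ≤ a) (hb : 0 ≤ b) (hab : 2 * a + b ≤ β) :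
    (1 - 3 * β + β ^ 2) / 8 ≤ 1 / 4 * (1 / 2 - a - b) - a * (1 - a - b) * (1 / 2 - b) := by
  have hq := quad_pos hβ
  have hC := cst_lt
  -- first step: replace `b` by `β - 2 a`
  have h1 : 0 ≤ (β - 2 * a - b) * (1 / 4 - a * ((1 / 2 - b) + (1 - a - (β - 2 * a)))) := by
    apply mul_nonneg (by linarith)
    have h2 : a * ((1 / 2 - b) + (1 - a - (β - 2 * a))) ≤ a * (3 / 2 - a) :=
      mul_le_mul_of_nonneg_left (by linarith) ha
    have h3 : a * (3 / 2 - a) ≤ β / 2 * (3 / 2 - β / 2) := by nlinarith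
    nlinarith
  have h2 : 1 / 4 * (1 / 2 - a - (β - 2 * a)) - a * (1 - a - (β - 2 * a)) * (1 / 2 - (β - 2 * a)) ≤
      1 / 4 * (1 / 2 - a - b) - a * (1 - a - b) * (1 / 2 - b) := by nlinarith [h1]
  refine le_trans ?_ h2
  have h3 : (1 - a - (β - 2 * a)) * (1 / 2 - (β - 2 * a)) ≤ (1 - β / 2) * (1 / 2) := by
    apply mul_le_mul (by linarith) (by linarith) (by linarith) (by linarith)
  have h4 := mul_le_mul_of_nonneg_left h3 ha
  nlinarith [mul_nonneg (show 0 ≤ β / 2 - a by linarith) (show 0 ≤ 1 - β by linarith)]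

theorem real : S_REAL := by
  intro β hβ0 hβ
  have hq := quad_pos hβ
  have hC := cst_lt
  set d : ℝ := (1 - 3 * β + β ^ 2) / 8 with hd
  have hd0 : 0 < d := by rw [hd]; positivity
  refine ⟨min (d / 2) (1 / 100), by positivity, ?_, ?_⟩
  · exact lt_of_le_of_lt (min_le_right _ _) (by norm_num)
  intro a b c μ ha hb hc habc hab hμ
  set η : ℝ := min (d / 2) (1 / 100) with hη
  have hη1 : η ≤ d / 2 := min_le_left _ _
  have hη2 : η ≤ 1 / 100 := min_le_right _ _
  have hη0 : 0 < η := by rw [hη]; positivity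
  have hf := f_lower hβ ha hb hab
  rw [← hd] at hf
  set μ0 : ℝ := 1 / 2 - η with hμ0
  have h49 : 0.49 ≤ μ0 := by rw [hμ0]; linarith
  have hbμ : b < μ := by linarith
  refine ⟨hbμ, ?_⟩
  -- value at `μ0`
  have e1 : (1 / 4 * (1 / 2 - a - b) - a * (1 - a - b) * (1 / 2 - b)) -
      (μ0 ^ 2 * (μ0 - b) - a * μ0 ^ 2 - a * (1 - a - b) * (μ0 - b)) =
      η * ((1 / 4 + 1 / 2 * (1 / 2 - η) + (1 / 2 - η) ^ 2) - (a + b) * (1 - η) - a * (1 - a - b)) := by
    rw [hμ0]; ring
  have e2 : (1 / 4 + 1 / 2 * (1 / 2 - η) + (1 / 2 - η) ^ 2) - (a + b) * (1 - η) - a * (1 - a - b)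
      ≤ 1 := by
    have k1 : 0 ≤ (a + b) * (1 - η) := mul_nonneg (by linarith) (by linarith)
    have k2 : 0 ≤ a * (1 - a - b) := mul_nonneg ha (by linarith)
    nlinarith
  have e3 := mul_le_mul_of_nonneg_left e2 hη0.le
  have hG0 : 0 < μ0 ^ 2 * (μ0 - b) - a * μ0 ^ 2 - a * (1 - a - b) * (μ0 - b) := by linarith
  -- monotonicity in `μ`
  have e4 : (μ ^ 2 * (μ - b) - a * μ ^ 2 - a * (1 - a - b) * (μ - b)) -
      (μ0 ^ 2 * (μ0 - b) - a * μ0 ^ 2 - a * (1 - a - b) * (μ0 - b)) =
      (μ - μ0) * (μ * (μ - (a + b)) + μ0 * (μ - (a + b)) + μ0 ^ 2 - a * (1 - a - b)) := by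
    ring
  have e5 : 0 ≤ μ * (μ - (a + b)) + μ0 * (μ - (a + b)) + μ0 ^ 2 - a * (1 - a - b) := by
    have k1 : 0 ≤ μ * (μ - (a + b)) := mul_nonneg (by linarith) (by linarith)
    have k2 : 0 ≤ μ0 * (μ - (a + b)) := mul_nonneg (by linarith) (by linarith)
    have k3 : a * (1 - a - b) ≤ a * 1 := mul_le_mul_of_nonneg_left (by linarith) ha
    have k4 : 0.49 * 0.49 ≤ μ0 * μ0 := mul_le_mul h49 h49 (by norm_num) (by linarith)
    have k5 : μ0 ^ 2 = μ0 * μ0 := by ring
    linarith
  have e6 := mul_nonneg (sub_nonneg.2 hμ) e5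
  have e7 : a * (c * (μ - b)) ≤ a * ((1 - a - b) * (μ - b)) :=
    mul_le_mul_of_nonneg_left (mul_le_mul_of_nonneg_right (by linarith) (by linarith)) ha
  have e8 : 0 < μ ^ 2 * (μ - b) - a * μ ^ 2 - a * (1 - a - b) * (μ - b) := by linarith
  have e9 : a * (1 - a - b) * (μ - b) = a * ((1 - a - b) * (μ - b)) := by ring
  have e10 : a * (μ ^ 2 + c * (μ - b)) = a * μ ^ 2 + a * (c * (μ - b)) := by ring
  rw [e10]
  linarith

/-- the sum of `x` over the neighbours of `v` is at most the sum over a set containing them -/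
lemma nsum_le {k : ℕ} (R : SimpleGraph (Fin k)) (x : Fin k → ℝ) (hx : ∀ v, 0 ≤ x v) (v : Fin k)
    (S : Finset (Fin k)) (hS : ∀ w, R.Adj v w → w ∈ S) : nsum R x v ≤ ∑ w ∈ S, x w := by
  unfold nsum
  rw [← Finset.sum_filter]
  refine Finset.sum_le_sum_of_subset_of_nonneg (fun w hw => hS w (Finset.mem_filter.1 hw).2)
    (fun w _ _ => hx w)

theorem main : S_PERRON → S_HALL → S_REAL → S_MATCH := by
  intro hperron hhall hreal ε hε
  by_cases hβ0 : Cst - ε < 0
  · refine ⟨1, one_pos, fun k hk R _ => ⟨∅, id, ?_, ?_, ?_⟩⟩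
    · simp
    · simp
    · simp only [Finset.card_empty, Nat.cast_zero]
      exact mul_nonpos_of_nonpos_of_nonneg hβ0.le (Nat.cast_nonneg _)
  push Not at hβ0
  set β := Cst - ε with hβ
  obtain ⟨η, hη0, hη1, hη⟩ := hreal β hβ0 (by linarith)
  refine ⟨η, hη0, fun k hk R hlam => ?_⟩
  have hkR : (0 : ℝ) < k := by exact_mod_cast hk
  haveI : Nonempty (Fin k) := ⟨⟨0, hk⟩⟩
  have hβk : 0 ≤ β * k := mul_nonneg hβ0 hkR.le
  have hC := cst_lt
  set n := ⌈β * k⌉₊ with hn
  have hnk : n ≤ k := by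
    rw [hn, Nat.ceil_le]
    nlinarith
  by_cases hhc : ∀ X : Finset (Fin k), #X ≤ #(univ.filter fun j => ∃ i ∈ X, R.Adj i j) + (k - n)
  · obtain ⟨D, f, h1, h2, h3⟩ := hhall k (k - n) R hhc
    refine ⟨D, f, h1, h2, ?_⟩
    have h4 : n ≤ #D := by omega
    exact (Nat.le_ceil _).trans (by exact_mod_cast h4)
  exfalso
  push Not at hhc
  obtain ⟨X, hX⟩ := hhc
  set N : Finset (Fin k) := univ.filter fun j => ∃ i ∈ X, R.Adj i j with hN
  set I : Finset (Fin k) := X \ N with hI
  set P : Finset (Fin k) := univ.filter fun j => ∃ i ∈ I, R.Adj i j with hP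
  have hmN : ∀ i ∈ X, ∀ j, R.Adj i j → j ∈ N := fun i hi j hij =>
    Finset.mem_filter.2 ⟨Finset.mem_univ _, i, hi, hij⟩
  have hmP : ∀ i ∈ I, ∀ j, R.Adj i j → j ∈ P := fun i hi j hij =>
    Finset.mem_filter.2 ⟨Finset.mem_univ _, i, hi, hij⟩
  have hPN : P ⊆ N \ X := by
    intro j hj
    obtain ⟨i, hi, hij⟩ := (Finset.mem_filter.1 hj).2
    obtain ⟨hiX, hiN⟩ := Finset.mem_sdiff.1 hi
    refine Finset.mem_sdiff.2 ⟨hmN i hiX j hij, fun hjX => ?_⟩
    exact hiN (hmN j hjX i hij.symm)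
  have hcard : #P + (k - n) < #I := by
    have h1 : #P ≤ #(N \ X) := Finset.card_le_card hPN
    have h2 := Finset.card_sdiff_add_card_inter N X
    have h3 := Finset.card_sdiff_add_card_inter X N
    rw [Finset.inter_comm X N] at h3
    rw [← hI] at h3
    omega
  have hdisj : Disjoint P I := by
    rw [Finset.disjoint_left]
    intro j hj hj'
    exact (Finset.mem_sdiff.1 (hPN hj)).2 (Finset.mem_sdiff.1 hj').1
  set B : Finset (Fin k) := (P ∪ I)ᶜ with hB
  have hcB : #P + #I + #B = k := by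
    have := Finset.card_add_card_compl (P ∪ I)
    rw [Finset.card_union_of_disjoint hdisj, Fintype.card_fin] at this
    exact this
  obtain ⟨x, hx0, ⟨v0, hv0⟩, hx⟩ := hperron (Fin k) R
  set sP := ∑ w ∈ P, x w with hsP
  set sI := ∑ w ∈ I, x w with hsI
  set sB := ∑ w ∈ B, x w with hsB
  have hsP0 : 0 ≤ sP := Finset.sum_nonneg fun w _ => hx0 w
  have hsI0 : 0 ≤ sI := Finset.sum_nonneg fun w _ => hx0 w
  have hsB0 : 0 ≤ sB := Finset.sum_nonneg fun w _ => hx0 w
  have hPI : ∑ w ∈ P ∪ I, x w = sP + sI := Finset.sum_union hdisj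
  have hall' : ∑ w, x w = sP + sI + sB := by
    rw [← hPI, hsB, hB]
    exact (Finset.sum_add_sum_compl _ _).symm
  have hdPB : Disjoint P B := by
    rw [hB, Finset.disjoint_left]
    intro w hw hw'
    exact (Finset.mem_compl.1 hw') (Finset.mem_union_left _ hw)
  -- the three inequalities
  have q1 : lam R * sI ≤ #I * sP := by
    rw [hsI, Finset.mul_sum]
    calc ∑ v ∈ I, lam R * x v ≤ ∑ _v ∈ I, sP := by
          refine Finset.sum_le_sum fun v hv => ?_
          rw [← hx v]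
          exact nsum_le R x hx0 v P (fun w hw => hmP v hv w hw)
      _ = #I * sP := by rw [Finset.sum_const, nsmul_eq_mul]
  have q2 : lam R * sB ≤ #B * (sP + sB) := by
    rw [hsB, Finset.mul_sum]
    calc ∑ v ∈ B, lam R * x v ≤ ∑ _v ∈ B, (sP + sB) := by
          refine Finset.sum_le_sum fun v hv => ?_
          rw [← hx v]
          have : sP + sB = ∑ w ∈ P ∪ B, x w := (Finset.sum_union hdPB).symm
          rw [this]
          refine nsum_le R x hx0 v _ (fun w hw => ?_)
          have hvPI : v ∉ P ∪ I := Finset.mem_compl.1 hv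
          have hwI : w ∉ I := fun hwI =>
            hvPI (Finset.mem_union_left _ (hmP w hwI v hw.symm))
          by_cases hwP : w ∈ P
          · exact Finset.mem_union_left _ hwP
          · refine Finset.mem_union_right _ (Finset.mem_compl.2 fun h => ?_)
            rcases Finset.mem_union.1 h with h | h
            · exact hwP h
            · exact hwI h
      _ = #B * (sP + sB) := by rw [Finset.sum_const, nsmul_eq_mul]
  have q3 : lam R * sP ≤ #P * (sP + sI + sB) := by
    rw [hsP, Finset.mul_sum]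
    calc ∑ v ∈ P, lam R * x v ≤ ∑ _v ∈ P, (sP + sI + sB) := by
          refine Finset.sum_le_sum fun v hv => ?_
          rw [← hx v, ← hall']
          exact nsum_le R x hx0 v _ (fun w _ => Finset.mem_univ _)
      _ = #P * (sP + sI + sB) := by rw [Finset.sum_const, nsmul_eq_mul]
  -- normalised quantities
  have hcB' : (#P : ℝ) + #I + #B = k := by exact_mod_cast hcB
  have hcard' : (#P : ℝ) + (k - n) + 1 ≤ #I := by
    have : #P + (k - n) + 1 ≤ #I := hcard
    have h2 : ((#P + (k - n) + 1 : ℕ) : ℝ) ≤ #I := by exact_mod_cast this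
    push_cast [Nat.cast_sub hnk] at h2
    exact h2
  have hnlt : (n : ℝ) < β * k + 1 := Nat.ceil_lt_add_one hβk
  set a : ℝ := #P / k with ha
  set b : ℝ := #B / k with hb
  set c : ℝ := #I / k with hc
  set μ : ℝ := lam R / k with hμ
  have eP : (#P : ℝ) = a * k := (div_mul_cancel₀ _ hkR.ne').symm
  have eB : (#B : ℝ) = b * k := (div_mul_cancel₀ _ hkR.ne').symm
  have eI : (#I : ℝ) = c * k := (div_mul_cancel₀ _ hkR.ne').symm
  have eL : lam R = μ * k := (div_mul_cancel₀ _ hkR.ne').symm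
  have ha0 : 0 ≤ a := div_nonneg (Nat.cast_nonneg _) hkR.le
  have hb0 : 0 ≤ b := div_nonneg (Nat.cast_nonneg _) hkR.le
  have hc0 : 0 ≤ c := div_nonneg (Nat.cast_nonneg _) hkR.le
  have habc : a + b + c = 1 := by
    have : (a + b + c) * k = 1 * k := by rw [eP, eB, eI] at hcB'; linarith
    exact mul_right_cancel₀ hkR.ne' this
  have h2ab : 2 * a + b ≤ β := by
    have : (2 * a + b) * k ≤ β * k := by
      rw [eP, eI] at hcard'
      have : (2 * a + b) * k = (a + b + c) * k + a * k - c * k := by ring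
      rw [this, habc]
      linarith
    exact le_of_mul_le_mul_right this hkR
  have hμη : 1 / 2 - η ≤ μ := by
    rw [eL] at hlam
    exact le_of_mul_le_mul_right hlam hkR
  obtain ⟨hbμ, hfin⟩ := hη a b c μ ha0 hb0 hc0 habc.le h2ab hμη
  have hμ0 : 0 < μ := lt_of_le_of_lt hb0 hbμ
  have r1 : μ * sI ≤ c * sP := by
    rw [eL, eI] at q1
    have : (μ * sI) * k ≤ (c * sP) * k := by linarith
    exact le_of_mul_le_mul_right this hkR
  have r2 : (μ - b) * sB ≤ b * sP := by
    rw [eL, eB] at q2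
    have : ((μ - b) * sB) * k ≤ (b * sP) * k := by linarith
    exact le_of_mul_le_mul_right this hkR
  have r3 : μ * sP ≤ a * (sP + sI + sB) := by
    rw [eL, eP] at q3
    have : (μ * sP) * k ≤ (a * (sP + sI + sB)) * k := by linarith
    exact le_of_mul_le_mul_right this hkR
  rcases hsP0.eq_or_lt with h0 | hpos
  · -- `sP = 0`
    rw [← h0, mul_zero] at r1 r2
    have z1 : sI = 0 := le_antisymm (by
      by_contra h
      push Not at h
      have := mul_pos hμ0 h
      linarith) hsI0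
    have z2 : sB = 0 := le_antisymm (by
      by_contra h
      push Not at h
      have := mul_pos (sub_pos.2 hbμ) h
      linarith) hsB0
    have z3 : ∑ w, x w = 0 := by rw [hall', ← h0, z1, z2]; simp
    have z4 := (Finset.sum_eq_zero_iff_of_nonneg fun w _ => hx0 w).1 z3 v0 (Finset.mem_univ _)
    linarith
  · have hmb : 0 < μ - b := sub_pos.2 hbμ
    have s1 : μ * (μ - b) * (μ * sP) ≤ μ * (μ - b) * (a * (sP + sI + sB)) :=
      mul_le_mul_of_nonneg_left r3 (mul_pos hμ0 hmb).le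
    have s2 : a * (μ - b) * (μ * sI) ≤ a * (μ - b) * (c * sP) :=
      mul_le_mul_of_nonneg_left r1 (mul_nonneg ha0 hmb.le)
    have s3 : a * μ * ((μ - b) * sB) ≤ a * μ * (b * sP) :=
      mul_le_mul_of_nonneg_left r2 (mul_nonneg ha0 hμ0.le)
    have s4 : a * (μ ^ 2 + c * (μ - b)) * sP < μ ^ 2 * (μ - b) * sP :=
      mul_lt_mul_of_pos_right hfin hpos
    nlinarith

end Pool.Agent.W970.CC.MATCH
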